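import Mathlib

/-!
Coefficient formulas for the action of a few orthogonal matrices on real polynomials in four
variables, and for the Laplacian.
-/

set_option autoImplicit false

open MvPolynomial

namespace Pool.Agent.Helper47.Orb

/-- real polynomials in four variables -/
abbrev P4 := MvPolynomial (Fin 4) ℝ

/-- exponents -/
abbrev E4 := Fin 4 →₀ ℕ

/-- the substitution `x_i ↦ ∑ j, g i j x_j`. -/
noncomputable def act (g : Matrix.orthogonalGroup (Fin 4) ℝ) : P4 →ₐ[ℝ] P4 :=
  aeval (fun i : Fin 4 => ∑ j : Fin 4, C (g.1 i j) * X j)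

/-- the Laplacian -/
noncomputable def lap : P4 →ₗ[ℝ] P4 :=
  ∑ i : Fin 4, (pderiv i).toLinearMap ∘ₗ (pderiv i).toLinearMap

theorem act_X (g : Matrix.orthogonalGroup (Fin 4) ℝ) (i : Fin 4) :
    act g (X i) = ∑ j : Fin 4, C (g.1 i j) * X j := by
  simp [act]

theorem act_one (p : P4) : act 1 p = p := by
  have : act 1 = AlgHom.id ℝ P4 := by
    apply algHom_ext
    intro i
    rw [act_X]
    simp [Matrix.one_apply, Finset.sum_ite_eq]
  rw [this]; rfl

theorem act_mul (g h : Matrix.orthogonalGroup (Fin 4) ℝ) (p : P4) :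
    act (h * g) p = act g (act h p) := by
  have : act (h * g) = (act g).comp (act h) := by
    apply algHom_ext
    intro i
    rw [AlgHom.comp_apply, act_X, act_X, map_sum]
    simp only [map_mul, act_X, algHom_C, Submonoid.coe_mul, Matrix.mul_apply, map_sum]
    simp only [algebraMap_eq, Finset.mul_sum, Finset.sum_mul]
    rw [Finset.sum_comm]
    refine Finset.sum_congr rfl fun j _ => Finset.sum_congr rfl fun k _ => ?_
    ring
  rw [this]; rfl

/-- the stabiliser of a polynomial. -/
noncomputable def stab (p : P4) : Subgroup (Matrix.orthogonalGroup (Fin 4) ℝ) where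
  carrier := {g | act g p = p}
  mul_mem' := by
    intro a b ha hb
    simp only [Set.mem_ofPred_eq] at *
    rw [act_mul, ha, hb]
  one_mem' := act_one p
  inv_mem' := by
    intro a ha
    simp only [Set.mem_ofPred_eq] at *
    conv_lhs => rw [← ha]
    rw [← act_mul, mul_inv_cancel, act_one]

theorem mem_stab (p : P4) (g : Matrix.orthogonalGroup (Fin 4) ℝ) :
    g ∈ stab p ↔ act g p = p := Iff.rfl

theorem mem_inv_closure (S : Set (Matrix.orthogonalGroup (Fin 4) ℝ)) (p : P4) :
    (∀ g ∈ Subgroup.closure S, act g p = p) ↔ ∀ g ∈ S, act g p = p := by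
  constructor
  · intro h g hg
    exact h g (Subgroup.subset_closure hg)
  · intro h g hg
    have : Subgroup.closure S ≤ stab p := by
      rw [Subgroup.closure_le]
      intro g hg
      exact h g hg
    exact this hg

/-! ### coefficients of the Laplacian -/

theorem coeff_lap (p : P4) (α : E4) :
    coeff α (lap p) = ∑ i : Fin 4, ((α i : ℝ) + 2) * ((α i : ℝ) + 1) *
      coeff (α + Finsupp.single i 2) p := by
  unfold lap
  rw [LinearMap.sum_apply, coeff_sum]
  refine Finset.sum_congr rfl fun i _ => ?_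
  simp only [LinearMap.comp_apply, Derivation.coeFn_coe, coeff_pderiv]
  have : α + Finsupp.single i 1 + Finsupp.single i 1 = α + Finsupp.single i 2 := by
    rw [add_assoc, ← Finsupp.single_add]
  rw [this]
  simp only [Finsupp.add_apply, Finsupp.single_eq_same]
  push_cast
  ring

/-! ### diagonal matrices -/

theorem act_monomial_diag (g : Matrix.orthogonalGroup (Fin 4) ℝ) (ε : Fin 4 → ℝ)
    (hg : g.1 = Matrix.diagonal ε) (α : E4) (c : ℝ) :
    act g (monomial α c) = monomial α ((∏ i, ε i ^ α i) * c) := by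
  unfold act
  rw [aeval_monomial, Finsupp.prod_fintype _ _ (by simp)]
  have h1 : ∀ i : Fin 4, (∑ j : Fin 4, C (g.1 i j) * X j : P4) = C (ε i) * X i := by
    intro i
    rw [hg]
    rw [Finset.sum_eq_single i]
    · simp
    · intro j _ hj
      rw [Matrix.diagonal_apply_ne' _ hj]; simp
    · simp
  simp only [h1, mul_pow, Finset.prod_mul_distrib]
  rw [monomial_eq (s := α), Finsupp.prod_fintype _ _ (by simp)]
  simp only [algebraMap_eq, map_mul, map_prod, map_pow]
  ring

theorem coeff_act_diag (g : Matrix.orthogonalGroup (Fin 4) ℝ) (ε : Fin 4 → ℝ)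
    (hg : g.1 = Matrix.diagonal ε) (p : P4) (α : E4) :
    coeff α (act g p) = (∏ i, ε i ^ α i) * coeff α p := by
  induction p using MvPolynomial.induction_on' with
  | monomial β c =>
    rw [act_monomial_diag g ε hg, coeff_monomial, coeff_monomial]
    split_ifs with h
    · rw [h]
    · simp
  | add p q hp hq =>
    rw [map_add, coeff_add, coeff_add, hp, hq]; ring

/-! ### the quarter turn -/

/-- exchange of the first two exponents -/
def sw (α : E4) : E4 := Finsupp.equivMapDomain (Equiv.swap 0 1) α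

@[simp] theorem sw_0 (α : E4) : sw α 0 = α 1 := by
  simp [sw, Finsupp.equivMapDomain_apply]
@[simp] theorem sw_1 (α : E4) : sw α 1 = α 0 := by
  simp [sw, Finsupp.equivMapDomain_apply]
@[simp] theorem sw_2 (α : E4) : sw α 2 = α 2 := by
  simp [sw, Finsupp.equivMapDomain_apply]; rfl
@[simp] theorem sw_3 (α : E4) : sw α 3 = α 3 := by
  simp [sw, Finsupp.equivMapDomain_apply]; rfl

theorem e4_ext {α β : E4} (h0 : α 0 = β 0) (h1 : α 1 = β 1) (h2 : α 2 = β 2) (h3 : α 3 = β 3) :
    α = β := by
  ext i
  fin_cases i <;> assumption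

theorem sw_sw (α : E4) : sw (sw α) = α := by
  apply e4_ext <;> simp

theorem sw_eq_iff (α β : E4) : sw α = β ↔ α = sw β := by
  constructor
  · rintro rfl; rw [sw_sw]
  · rintro rfl; rw [sw_sw]

theorem act_monomial_R (g : Matrix.orthogonalGroup (Fin 4) ℝ)
    (hg : g.1 = !![0, -1, 0, 0; 1, 0, 0, 0; 0, 0, 1, 0; 0, 0, 0, 1]) (α : E4) (c : ℝ) :
    act g (monomial α c) = monomial (sw α) ((-1) ^ α 0 * c) := by
  unfold act
  rw [aeval_monomial, Finsupp.prod_fintype _ _ (by simp)]
  rw [monomial_eq (s := sw α), Finsupp.prod_fintype _ _ (by simp)]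
  rw [hg]
  simp only [Fin.sum_univ_four, Fin.prod_univ_four, sw_0, sw_1, sw_2, sw_3]
  simp [Matrix.cons_val', algebraMap_eq, neg_pow (X 1 : P4)]
  ring

theorem coeff_act_R (g : Matrix.orthogonalGroup (Fin 4) ℝ)
    (hg : g.1 = !![0, -1, 0, 0; 1, 0, 0, 0; 0, 0, 1, 0; 0, 0, 0, 1]) (p : P4) (α : E4) :
    coeff α (act g p) = (-1) ^ α 1 * coeff (sw α) p := by
  induction p using MvPolynomial.induction_on' with
  | monomial β c =>
    rw [act_monomial_R g hg, coeff_monomial, coeff_monomial]
    by_cases h : sw β = α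
    · rw [if_pos h, if_pos ((sw_eq_iff _ _).1 h), ← h]; simp
    · rw [if_neg h, if_neg (fun h' => h ((sw_eq_iff _ _).2 h'))]; simp
  | add p q hp hq =>
    rw [map_add, coeff_add, coeff_add, hp, hq]; ring

end Pool.Agent.Helper47.Orb
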