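import Pool.Agent.Helper47.Orb.Coeff

/-!
Surjectivity of the Laplacian on polynomials whose exponents have prescribed parities.
-/

set_option autoImplicit false

open MvPolynomial

namespace Pool.Agent.Helper47.Orb

/-- a set of exponents that only depends on parities -/
def Par (A : Set E4) : Prop := ∀ α ∈ A, ∀ β : E4, (∀ i, β i % 2 = α i % 2) → β ∈ A

/-- total degree of an exponent -/
def deg4 (α : E4) : ℕ := α 0 + α 1 + α 2 + α 3

/-- polynomials with exponents in `A` and of degree `k` -/
noncomputable def restr (A : Set E4) (k : ℕ) : Submodule ℝ P4 :=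
  restrictSupport ℝ {α | α ∈ A ∧ deg4 α = k}

theorem mem_restr (A : Set E4) (k : ℕ) (p : P4) :
    p ∈ restr A k ↔ ∀ α, coeff α p ≠ 0 → α ∈ A ∧ deg4 α = k := by
  unfold restr
  rw [mem_restrictSupport_iff]
  constructor
  · intro h α hα
    exact h (by simpa [mem_support_iff] using hα)
  · intro h α hα
    exact h α (by simpa [mem_support_iff] using hα)

theorem monomial_mem_restr (A : Set E4) (k : ℕ) (α : E4) (hα : α ∈ A) (hd : deg4 α = k) (c : ℝ) :
    (monomial α c : P4) ∈ restr A k := by
  rw [mem_restr]
  intro β hβ
  rw [coeff_monomial] at hβ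
  split_ifs at hβ with h
  · subst h; exact ⟨hα, hd⟩
  · exact absurd rfl hβ

theorem lap_monomial (α : E4) (c : ℝ) :
    lap (monomial α c) = ∑ i : Fin 4, monomial (α - Finsupp.single i 2)
      (c * (α i : ℝ) * ((α i - 1 : ℕ) : ℝ)) := by
  unfold lap
  rw [LinearMap.sum_apply]
  refine Finset.sum_congr rfl fun i _ => ?_
  simp only [LinearMap.comp_apply, Derivation.coeFn_coe, pderiv_monomial]
  congr 1
  · rw [tsub_tsub, ← Finsupp.single_add]
  · simp

theorem deg4_add (α β : E4) : deg4 (α + β) = deg4 α + deg4 β := by
  simp [deg4]; ring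

theorem deg4_single (i : Fin 4) (n : ℕ) : deg4 (Finsupp.single i n) = n := by
  fin_cases i <;> simp [deg4, Finsupp.single_apply]

theorem monomial_mem_map (A : Set E4) (hA : Par A) (k : ℕ) :
    ∀ n : ℕ, ∀ β ∈ A, deg4 β = k → β 0 + β 1 + β 2 = n →
      (monomial β 1 : P4) ∈ Submodule.map lap (restr A (k + 2)) := by
  intro n
  induction n using Nat.strong_induction_on with
  | _ n ih =>
    intro β hβ hd hn
    set a : ℝ := 1 / (((β 3 : ℝ) + 2) * ((β 3 : ℝ) + 1)) with ha
    have hmem : lap (monomial (β + Finsupp.single 3 2) a) ∈ Submodule.map lap (restr A (k + 2)) := by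
      apply Submodule.mem_map_of_mem
      apply monomial_mem_restr
      · apply hA β hβ
        intro i
        rw [Finsupp.add_apply, Finsupp.single_apply]
        split_ifs <;> omega
      · rw [deg4_add, deg4_single, hd]
    rw [lap_monomial, Fin.sum_univ_castSucc] at hmem
    have hlast : (monomial (β + Finsupp.single 3 2 - Finsupp.single (Fin.last 3) 2)
        (a * (((β + Finsupp.single 3 2 : E4) (Fin.last 3) : ℕ) : ℝ) *
          (((β + Finsupp.single 3 2 : E4) (Fin.last 3) - 1 : ℕ) : ℝ)) : P4) = monomial β 1 := by
      have h3 : (Fin.last 3 : Fin 4) = 3 := rfl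
      rw [h3, add_tsub_cancel_right]
      congr 1
      simp only [Finsupp.add_apply, Finsupp.single_eq_same]
      have h1 : ((β 3 + 2 - 1 : ℕ) : ℝ) = (β 3 : ℝ) + 1 := by
        have : β 3 + 2 - 1 = β 3 + 1 := by omega
        rw [this]; push_cast; ring
      rw [h1, ha]
      push_cast
      have h2 : (β 3 : ℝ) + 2 ≠ 0 := by positivity
      have h3 : (β 3 : ℝ) + 1 ≠ 0 := by positivity
      field_simp
    rw [hlast] at hmem
    have hrest : (∑ i : Fin 3, (monomial (β + Finsupp.single 3 2 - Finsupp.single i.castSucc 2)
        (a * (((β + Finsupp.single 3 2 : E4) i.castSucc : ℕ) : ℝ) *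
          (((β + Finsupp.single 3 2 : E4) i.castSucc - 1 : ℕ) : ℝ)) : P4)) ∈
          Submodule.map lap (restr A (k + 2)) := by
      apply Submodule.sum_mem
      intro i _
      have hi : (3 : Fin 4) ≠ i.castSucc := by
        intro h
        have := congrArg Fin.val h
        simp at this
        omega
      have hv : (β + Finsupp.single 3 2 : E4) i.castSucc = β i.castSucc := by
        rw [Finsupp.add_apply, Finsupp.single_eq_of_ne hi.symm, add_zero]
      rw [hv]
      by_cases h2 : 2 ≤ β i.castSucc
      · have hγ : (monomial (β + Finsupp.single 3 2 - Finsupp.single i.castSucc 2) 1 : P4) ∈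
          Submodule.map lap (restr A (k + 2)) := by
          set γ : E4 := β + Finsupp.single 3 2 - Finsupp.single i.castSucc 2 with hγdef
          have hγi : ∀ j, γ j = β j + (if 3 = j then 2 else 0) - (if i.castSucc = j then 2 else 0) := by
            intro j
            rw [hγdef, Finsupp.tsub_apply, Finsupp.add_apply, Finsupp.single_apply,
              Finsupp.single_apply]
          have hmeas : γ 0 + γ 1 + γ 2 < n ∧ deg4 γ = k := by
            rw [← hn]
            unfold deg4 at hd ⊢
            rw [hγi 0, hγi 1, hγi 2, hγi 3]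
            fin_cases i <;> simp at h2 ⊢ <;> omega
          apply ih _ hmeas.1 γ _ hmeas.2 rfl
          apply hA β hβ
          intro j
          rw [hγi j]
          by_cases hj : i.castSucc = j
          · subst hj
            rw [if_neg hi, if_pos rfl]
            omega
          · rw [if_neg hj]
            split_ifs <;> omega
        have := Submodule.smul_mem _ (a * (β i.castSucc : ℝ) * ((β i.castSucc - 1 : ℕ) : ℝ)) hγ
        rw [smul_monomial] at this
        simpa using this
      · have h01 : β i.castSucc = 0 ∨ β i.castSucc = 1 := by omega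
        have : (a * (β i.castSucc : ℝ) * ((β i.castSucc - 1 : ℕ) : ℝ)) = 0 := by
          rcases h01 with h | h <;> simp [h]
        rw [this, map_zero]
        exact Submodule.zero_mem _
    have := Submodule.sub_mem _ hmem hrest
    rwa [add_sub_cancel_left] at this

theorem restr_le_map (A : Set E4) (hA : Par A) (k : ℕ) :
    restr A k ≤ Submodule.map lap (restr A (k + 2)) := by
  intro q hq
  rw [mem_restr] at hq
  rw [q.as_sum]
  apply Submodule.sum_mem
  intro β hβ
  have h := hq β (mem_support_iff.1 hβ)
  have h1 := monomial_mem_map A hA k _ β h.1 h.2 rfl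
  have := Submodule.smul_mem _ (coeff β q) h1
  rw [smul_monomial] at this
  simpa using this

theorem lap_mem_restr (A : Set E4) (hA : Par A) (k : ℕ) (p : P4) (hp : p ∈ restr A (k + 2)) :
    lap p ∈ restr A k := by
  rw [mem_restr] at hp ⊢
  intro α hα
  rw [coeff_lap] at hα
  obtain ⟨i, _, hi⟩ := Finset.exists_ne_zero_of_sum_ne_zero hα
  have h := hp _ (right_ne_zero_of_mul hi)
  refine ⟨hA _ h.1 α ?_, ?_⟩
  · intro j
    rw [Finsupp.add_apply, Finsupp.single_apply]
    split_ifs <;> omega
  · have h2 := h.2
    rw [deg4_add, deg4_single] at h2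
    omega

/-- for degrees below two the Laplacian vanishes. -/
theorem lap_eq_zero (A : Set E4) (k : ℕ) (hk : k < 2) (p : P4) (hp : p ∈ restr A k) :
    lap p = 0 := by
  rw [mem_restr] at hp
  ext α
  rw [coeff_lap, coeff_zero]
  refine Finset.sum_eq_zero fun i _ => ?_
  by_cases h : coeff (α + Finsupp.single i 2) p = 0
  · rw [h, mul_zero]
  · have h2 := (hp _ h).2
    rw [deg4_add, deg4_single] at h2
    omega

end Pool.Agent.Helper47.Orb
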