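import Pool.Agent.Helper47.Orb.Groups
import Pool.Agent.Helper47.Orb.Surj

/-!
Dimension count: the invariants of `G1` and `G2` of each degree have equal dimension.
-/

set_option autoImplicit false

open MvPolynomial

namespace Pool.Agent.Helper47.Orb

/-- the invariants of a group -/
noncomputable def Inv (Γ : Subgroup O4) : Submodule ℝ P4 :=
  ⨅ g ∈ Γ, LinearMap.ker ((act g).toLinearMap - LinearMap.id)

theorem mem_Inv (Γ : Subgroup O4) (p : P4) : p ∈ Inv Γ ↔ ∀ g ∈ Γ, act g p = p := by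
  simp [Inv, Submodule.mem_iInf, LinearMap.mem_ker, sub_eq_zero]

/-- exponents with all entries of the same parity -/
def PA : Set E4 := {α | Even (α 0 + α 1) ∧ Even (α 2 + α 3) ∧ Even (α 0 + α 2)}
/-- exponents whose first two and last two entries have the same parity -/
def PS : Set E4 := {α | Even (α 0 + α 1) ∧ Even (α 2 + α 3)}

theorem PA_par : Par PA := by
  rintro α ⟨h1, h2, h3⟩ β h
  have := h 0; have := h 1; have := h 2; have := h 3
  rw [Nat.even_iff] at *
  refine ⟨?_, ?_, ?_⟩ <;> rw [Nat.even_iff] <;> omega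

theorem PS_par : Par PS := by
  rintro α ⟨h1, h2⟩ β h
  have := h 0; have := h 1; have := h 2; have := h 3
  rw [Nat.even_iff] at *
  refine ⟨?_, ?_⟩ <;> rw [Nat.even_iff] <;> omega

theorem mem_hom (k : ℕ) (p : P4) :
    p ∈ homogeneousSubmodule (Fin 4) ℝ k ↔ ∀ α, coeff α p ≠ 0 → deg4 α = k := by
  rw [mem_homogeneousSubmodule]
  unfold IsHomogeneous IsWeightedHomogeneous
  have h : ∀ α : E4, Finsupp.weight (1 : Fin 4 → ℕ) α = deg4 α := by
    intro α
    rw [Finsupp.weight_apply, Finsupp.sum_fintype _ _ (by simp), Fin.sum_univ_four]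
    simp [deg4]
  constructor
  · intro hp α hα
    rw [← h]; exact hp hα
  · intro hp α hα
    rw [h]; exact hp α hα

theorem act_diag_eq_iff (g : O4) (ε : Fin 4 → ℝ) (hg : g.1 = Matrix.diagonal ε) (p : P4) :
    act g p = p ↔ ∀ α, coeff α p ≠ 0 → ∏ i, ε i ^ α i = 1 := by
  constructor
  · intro h α hα
    have h1 := congrArg (coeff α) h
    rw [coeff_act_diag g ε hg] at h1
    exact mul_right_cancel₀ hα (by rw [h1, one_mul])
  · intro h
    ext α
    rw [coeff_act_diag g ε hg]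
    by_cases h0 : coeff α p = 0
    · rw [h0, mul_zero]
    · rw [h α h0, one_mul]

theorem neg_one_pow_iff (n : ℕ) : ((-1 : ℝ) ^ n = 1) ↔ Even n :=
  neg_one_pow_eq_one_iff_even (by norm_num)

theorem act_T_iff (p : P4) : act T p = p ↔ ∀ α, coeff α p ≠ 0 → Even (α 2 + α 3) := by
  rw [act_diag_eq_iff T eT rfl]
  refine forall_congr' fun α => imp_congr_right fun _ => ?_
  rw [← neg_one_pow_iff, Fin.prod_univ_four, pow_add]
  simp [eT]

theorem act_T'_iff (p : P4) : act T' p = p ↔ ∀ α, coeff α p ≠ 0 → Even (α 0 + α 1) := by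
  rw [act_diag_eq_iff T' eT' rfl]
  refine forall_congr' fun α => imp_congr_right fun _ => ?_
  rw [← neg_one_pow_iff, Fin.prod_univ_four, pow_add]
  simp [eT']

theorem act_S_iff (p : P4) : act S p = p ↔ ∀ α, coeff α p ≠ 0 → Even (α 0 + α 2) := by
  rw [act_diag_eq_iff S eS rfl]
  refine forall_congr' fun α => imp_congr_right fun _ => ?_
  rw [← neg_one_pow_iff, Fin.prod_univ_four, pow_add]
  simp [eS]

/-- the degree `k` invariants -/
noncomputable def U (Γ : Subgroup O4) (k : ℕ) : Submodule ℝ P4 :=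
  homogeneousSubmodule (Fin 4) ℝ k ⊓ Inv Γ

theorem U2_eq (k : ℕ) : U G2 k = restr PA k := by
  ext p
  unfold U
  rw [Submodule.mem_inf, mem_hom, mem_Inv, mem_restr]
  unfold G2
  rw [mem_inv_closure]
  simp only [Set.mem_insert_iff, Set.mem_singleton_iff, forall_eq_or_imp, forall_eq]
  rw [act_T_iff, act_T'_iff, act_S_iff]
  constructor
  · rintro ⟨h1, h2, h3, h4⟩ α hα
    exact ⟨⟨h2 α hα, h3 α hα, h4 α hα⟩, h1 α hα⟩
  · intro h
    exact ⟨fun α hα => (h α hα).2, fun α hα => (h α hα).1.1, fun α hα => (h α hα).1.2.1,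
      fun α hα => (h α hα).1.2.2⟩

theorem coeff_R (p : P4) (α : E4) : coeff α (act R p) = (-1) ^ α 1 * coeff (sw α) p :=
  coeff_act_R R rfl p α

theorem mem_U1 (k : ℕ) (p : P4) : p ∈ U G1 k ↔ p ∈ restr PS k ∧ act R p = p := by
  unfold U
  rw [Submodule.mem_inf, mem_hom, mem_Inv, mem_restr]
  unfold G1
  rw [mem_inv_closure]
  simp only [Set.mem_insert_iff, Set.mem_singleton_iff, forall_eq_or_imp, forall_eq]
  rw [act_T_iff]
  constructor
  · rintro ⟨h1, h2, h3⟩
    refine ⟨fun α hα => ⟨⟨?_, h3 α hα⟩, h1 α hα⟩, h2⟩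
    have ha := congrArg (coeff α) h2
    rw [← h2, coeff_R, coeff_R, sw_sw, sw_1, h2] at ha
    rw [← neg_one_pow_iff]
    apply mul_right_cancel₀ hα
    rw [one_mul, add_comm, pow_add, mul_assoc, ha]
  · rintro ⟨h1, h2⟩
    exact ⟨fun α hα => (h1 α hα).2, h2, fun α hα => (h1 α hα).1.2⟩

/-! ### the Laplacian maps `U (k+2)` onto `U k` -/

theorem map_U2 (k : ℕ) : Submodule.map lap (U G2 (k + 2)) = U G2 k := by
  rw [U2_eq, U2_eq]
  apply le_antisymm
  · rintro _ ⟨p, hp, rfl⟩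
    exact lap_mem_restr PA PA_par k p hp
  · exact restr_le_map PA PA_par k

theorem sw_add (α β : E4) : sw (α + β) = sw α + sw β := by
  apply e4_ext <;> simp

theorem lap_R (p : P4) : lap (act R p) = act R (lap p) := by
  ext α
  rw [coeff_lap, coeff_R, coeff_lap]
  simp only [coeff_R, sw_add, Fin.sum_univ_four, sw_0, sw_1, sw_2, sw_3, Finsupp.add_apply]
  have h0 : sw (Finsupp.single 0 2) = Finsupp.single 1 2 := by
    apply e4_ext <;> simp
  have h1 : sw (Finsupp.single 1 2) = Finsupp.single 0 2 := by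
    apply e4_ext <;> simp
  have h2 : sw (Finsupp.single 2 2) = Finsupp.single 2 2 := by
    apply e4_ext <;> simp
  have h3 : sw (Finsupp.single 3 2) = Finsupp.single 3 2 := by
    apply e4_ext <;> simp
  rw [h0, h1, h2, h3]
  simp [pow_add]
  ring

theorem R_mem_restr (k : ℕ) (p : P4) (hp : p ∈ restr PS k) : act R p ∈ restr PS k := by
  rw [mem_restr] at hp ⊢
  intro α hα
  rw [coeff_R] at hα
  obtain ⟨⟨h1, h2⟩, h3⟩ := hp _ (right_ne_zero_of_mul hα)
  rw [sw_0, sw_1] at h1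
  rw [sw_2, sw_3] at h2
  refine ⟨⟨by rwa [add_comm], h2⟩, ?_⟩
  rw [← h3]
  unfold deg4
  rw [sw_0, sw_1, sw_2, sw_3]; ring

theorem R_R (k : ℕ) (p : P4) (hp : p ∈ restr PS k) : act R (act R p) = p := by
  rw [mem_restr] at hp
  ext α
  rw [coeff_R, coeff_R, sw_sw, sw_1]
  by_cases h : coeff α p = 0
  · rw [h]; ring
  · have h1 := (hp α h).1.1
    rw [← neg_one_pow_iff, add_comm, pow_add] at h1
    rw [← mul_assoc, h1, one_mul]

theorem map_U1 (k : ℕ) : Submodule.map lap (U G1 (k + 2)) = U G1 k := by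
  apply le_antisymm
  · rintro _ ⟨p, hp, rfl⟩
    rw [SetLike.mem_coe, mem_U1] at hp
    rw [mem_U1]
    refine ⟨lap_mem_restr PS PS_par k p hp.1, ?_⟩
    rw [← lap_R, hp.2]
  · intro q hq
    rw [mem_U1] at hq
    obtain ⟨p, hp, hpq⟩ := restr_le_map PS PS_par k hq.1
    rw [SetLike.mem_coe] at hp
    refine ⟨(1 / 2 : ℝ) • (p + act R p), ?_, ?_⟩
    · rw [SetLike.mem_coe, mem_U1]
      refine ⟨Submodule.smul_mem _ _ (Submodule.add_mem _ hp (R_mem_restr _ _ hp)), ?_⟩
      rw [map_smul, map_add, R_R _ _ hp, add_comm]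
    · rw [map_smul, map_add, lap_R, hpq, hq.2, ← two_smul ℝ q, smul_smul]
      norm_num

/-! ### finite dimensionality -/

theorem finite_deg (A : Set E4) (k : ℕ) : Finite {α : E4 | α ∈ A ∧ deg4 α = k} := by
  have h : Set.Finite {α : E4 | α ∈ A ∧ deg4 α = k} := by
    apply Set.Finite.subset (Set.finite_Iic (Finsupp.equivFunOnFinite.symm (fun _ : Fin 4 => k)))
    rintro α ⟨_, h⟩
    rw [Set.mem_Iic]
    intro i
    unfold deg4 at h
    simp only [Finsupp.equivFunOnFinite_symm_apply_apply]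
    fin_cases i <;> simp <;> omega
  exact h.to_subtype

instance finiteDim_restr (A : Set E4) (k : ℕ) : FiniteDimensional ℝ (restr A k) := by
  have := finite_deg A k
  exact Module.Finite.of_basis (basisRestrictSupport ℝ {α : E4 | α ∈ A ∧ deg4 α = k})

theorem finrank_restr (A : Set E4) (k : ℕ) :
    Module.finrank ℝ (restr A k) = Nat.card {α : E4 | α ∈ A ∧ deg4 α = k} :=
  Module.finrank_eq_nat_card_basis (basisRestrictSupport ℝ {α : E4 | α ∈ A ∧ deg4 α = k})

theorem U1_le (k : ℕ) : U G1 k ≤ restr PS k := fun p hp => ((mem_U1 k p).1 hp).1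

theorem U2_le (k : ℕ) : U G2 k ≤ restr PA k := (U2_eq k).le

instance : ∀ k, FiniteDimensional ℝ (U G1 k) := fun k =>
  Submodule.finiteDimensional_of_le (U1_le k)
instance : ∀ k, FiniteDimensional ℝ (U G2 k) := fun k =>
  Submodule.finiteDimensional_of_le (U2_le k)

/-- rank-nullity for the Laplacian -/
theorem rank_nullity (W : ℕ → Submodule ℝ P4) (hfin : ∀ k, FiniteDimensional ℝ (W k))
    (hmap : ∀ k, Submodule.map lap (W (k + 2)) = W k) (k : ℕ) :
    Module.finrank ℝ (W k) + Module.finrank ℝ ↥(W (k + 2) ⊓ LinearMap.ker lap) =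
      Module.finrank ℝ (W (k + 2)) := by
  have h := LinearMap.finrank_range_add_finrank_ker (lap.domRestrict (W (k + 2)))
  rw [LinearMap.range_domRestrict, hmap, LinearMap.ker_domRestrict] at h
  rw [← h]
  congr 1
  rw [← Submodule.map_comap_subtype, Submodule.finrank_map_subtype_eq]

/-! ### counting -/

/-- representatives of the exponents of `G1`-invariants -/
def PB : Set E4 := {α | (Even (α 0 + α 1) ∧ Even (α 2 + α 3)) ∧
  (α 0 < α 1 ∨ (α 0 = α 1 ∧ Even (α 0)))}

theorem mem_PB (α : E4) : α ∈ PB ↔ (α 0 + α 1) % 2 = 0 ∧ (α 2 + α 3) % 2 = 0 ∧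
    (α 0 < α 1 ∨ (α 0 = α 1 ∧ α 0 % 2 = 0)) := by
  unfold PB
  rw [Set.mem_ofPred_eq, Nat.even_iff, Nat.even_iff, Nat.even_iff]
  tauto

theorem mem_PA (α : E4) : α ∈ PA ↔ (α 0 + α 1) % 2 = 0 ∧ (α 2 + α 3) % 2 = 0 ∧
    (α 0 + α 2) % 2 = 0 := by
  unfold PA
  rw [Set.mem_ofPred_eq, Nat.even_iff, Nat.even_iff, Nat.even_iff]

theorem mem_PS (α : E4) : α ∈ PS ↔ (α 0 + α 1) % 2 = 0 ∧ (α 2 + α 3) % 2 = 0 := by
  unfold PS
  rw [Set.mem_ofPred_eq, Nat.even_iff, Nat.even_iff]

theorem finrank_U1_le (k : ℕ) :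
    Module.finrank ℝ (U G1 k) ≤ Nat.card {α : E4 | α ∈ PB ∧ deg4 α = k} := by
  have := finite_deg PB k
  let Φ : U G1 k →ₗ[ℝ] ({α : E4 | α ∈ PB ∧ deg4 α = k} → ℝ) :=
    LinearMap.pi (fun β => (lcoeff ℝ (β : E4)) ∘ₗ (U G1 k).subtype)
  have hinj : Function.Injective Φ := by
    rw [← LinearMap.ker_eq_bot, LinearMap.ker_eq_bot']
    rintro ⟨p, hp⟩ h0
    have hB : ∀ β : E4, β ∈ PB → deg4 β = k → coeff β p = 0 := by
      intro β h1 h2
      exact congrFun h0 ⟨β, h1, h2⟩
    apply Subtype.ext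
    show p = 0
    obtain ⟨h1, h2⟩ := (mem_U1 k p).1 hp
    rw [mem_restr] at h1
    ext α
    rw [coeff_zero]
    by_contra hne
    obtain ⟨hS, hd⟩ := h1 α hne
    rw [mem_PS] at hS
    have hR : (-1) ^ α 1 * coeff (sw α) p = coeff α p := by
      rw [← coeff_R, h2]
    rcases lt_trichotomy (α 0) (α 1) with h | h | h
    · exact hne (hB α ((mem_PB α).2 ⟨hS.1, hS.2, Or.inl h⟩) hd)
    · by_cases he : α 0 % 2 = 0
      · exact hne (hB α ((mem_PB α).2 ⟨hS.1, hS.2, Or.inr ⟨h, he⟩⟩) hd)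
      · have hsw : sw α = α := by apply e4_ext <;> simp [h]
        have hodd : Odd (α 1) := by rw [Nat.odd_iff, ← h]; omega
        rw [hsw, hodd.neg_one_pow] at hR
        apply hne
        linarith
    · have : coeff (sw α) p = 0 := by
        apply hB
        · rw [mem_PB, sw_0, sw_1, sw_2, sw_3]
          refine ⟨by omega, hS.2, Or.inl h⟩
        · rw [← hd]; unfold deg4; rw [sw_0, sw_1, sw_2, sw_3]; ring
      rw [this, mul_zero] at hR
      exact hne hR.symm
  have h1 := LinearMap.finrank_le_finrank_of_injective hinj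
  have : Fintype {α : E4 | α ∈ PB ∧ deg4 α = k} := Fintype.ofFinite _
  rw [Module.finrank_fintype_fun_eq_card, ← Nat.card_eq_fintype_card] at h1
  exact h1

theorem le_finrank_U1 (k : ℕ) :
    Nat.card {α : E4 | α ∈ PB ∧ deg4 α = k} ≤ Module.finrank ℝ (U G1 k) := by
  rw [← finrank_restr]
  have hle : restr PB k ≤ restr PS k := by
    intro p hp
    rw [mem_restr] at hp ⊢
    intro α hα
    exact ⟨(hp α hα).1.1, (hp α hα).2⟩
  have hmem : ∀ q ∈ restr PB k, q + act R q ∈ U G1 k := by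
    intro q hq
    rw [mem_U1]
    refine ⟨Submodule.add_mem _ (hle hq) (R_mem_restr _ _ (hle hq)), ?_⟩
    rw [map_add, R_R _ _ (hle hq), add_comm]
  let Ψ : restr PB k →ₗ[ℝ] U G1 k :=
    LinearMap.restrict (LinearMap.id + (act R).toLinearMap) hmem
  have hinj : Function.Injective Ψ := by
    rw [← LinearMap.ker_eq_bot, LinearMap.ker_eq_bot']
    rintro ⟨q, hq⟩ h0
    have h1 : q + act R q = 0 := congrArg Subtype.val h0
    apply Subtype.ext
    show q = 0
    rw [mem_restr] at hq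
    ext α
    rw [coeff_zero]
    by_contra hne
    obtain ⟨hB, hd⟩ := hq α hne
    rw [mem_PB] at hB
    have h2 := congrArg (coeff α) h1
    rw [coeff_add, coeff_R, coeff_zero] at h2
    rcases hB with ⟨_, _, h | ⟨h, he⟩⟩
    · have : coeff (sw α) q = 0 := by
        by_contra hc
        obtain ⟨hB', _⟩ := hq _ hc
        rw [mem_PB, sw_0, sw_1] at hB'
        omega
      rw [this, mul_zero, add_zero] at h2
      exact hne h2
    · have hsw : sw α = α := by apply e4_ext <;> simp [h]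
      have heven : Even (α 1) := by rw [Nat.even_iff, ← h]; exact he
      rw [hsw, heven.neg_one_pow] at h2
      apply hne
      linarith
  exact LinearMap.finrank_le_finrank_of_injective hinj

/-- an explicit exponent -/
noncomputable def ex (a b c d : ℕ) : E4 := Finsupp.equivFunOnFinite.symm ![a, b, c, d]

@[simp] theorem ex_0 (a b c d : ℕ) : ex a b c d 0 = a := rfl
@[simp] theorem ex_1 (a b c d : ℕ) : ex a b c d 1 = b := rfl
@[simp] theorem ex_2 (a b c d : ℕ) : ex a b c d 2 = c := rfl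
@[simp] theorem ex_3 (a b c d : ℕ) : ex a b c d 3 = d := rfl

noncomputable def gBA (a b c d : ℕ) : E4 :=
  if a < b then
    if (a + c) % 2 = 0 then ex a b c d
    else ex (b - 1) (a + 1) c d
  else
    if c % 2 = 0 then ex (2 * a) 0 c d
    else ex (2 * a + 2) 0 (c - 1) (d - 1)

noncomputable def gAB (a b c d : ℕ) : E4 :=
  if a < b then ex a b c d
  else
    if 1 ≤ b then ex (b - 1) (a + 1) c d
    else
      if a % 4 = 0 then ex (a / 2) (a / 2) c d
      else ex (a / 2 - 1) (a / 2 - 1) (c + 1) (d + 1)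

noncomputable def fBA (α : E4) : E4 := gBA (α 0) (α 1) (α 2) (α 3)
noncomputable def fAB (α : E4) : E4 := gAB (α 0) (α 1) (α 2) (α 3)

theorem fBA_ex (a b c d : ℕ) : fBA (ex a b c d) = gBA a b c d := rfl
theorem fAB_ex (a b c d : ℕ) : fAB (ex a b c d) = gAB a b c d := rfl

theorem fBA_mem (k : ℕ) (α : E4) (h : α ∈ PB ∧ deg4 α = k) :
    fBA α ∈ PA ∧ deg4 (fBA α) = k := by
  obtain ⟨h1, h2⟩ := h
  rw [mem_PB] at h1
  rw [mem_PA]
  unfold deg4 at *
  unfold fBA gBA
  split_ifs <;> simp only [ex_0, ex_1, ex_2, ex_3] <;> omega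

theorem fAB_mem (k : ℕ) (α : E4) (h : α ∈ PA ∧ deg4 α = k) :
    fAB α ∈ PB ∧ deg4 (fAB α) = k := by
  obtain ⟨h1, h2⟩ := h
  rw [mem_PA] at h1
  rw [mem_PB]
  unfold deg4 at *
  unfold fAB gAB
  split_ifs <;> simp only [ex_0, ex_1, ex_2, ex_3, true_and] <;> omega

theorem fAB_fBA (α : E4) (h : α ∈ PB) : fAB (fBA α) = α := by
  rw [mem_PB] at h
  rw [fBA, gBA]
  by_cases c1 : α 0 < α 1
  · rw [if_pos c1]
    by_cases c2 : (α 0 + α 2) % 2 = 0
    · rw [if_pos c2]
      rw [fAB_ex, gAB]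
      rw [if_pos c1]
      apply e4_ext <;> simp only [ex_0, ex_1, ex_2, ex_3]
    · rw [if_neg c2]
      rw [fAB_ex, gAB]
      rw [if_neg (by omega), if_pos (by omega)]
      apply e4_ext <;> simp only [ex_0, ex_1, ex_2, ex_3] <;> omega
  · rw [if_neg c1]
    by_cases c2 : α 2 % 2 = 0
    · rw [if_pos c2]
      rw [fAB_ex, gAB]
      rw [if_neg (by omega), if_neg (by omega), if_pos (by omega)]
      apply e4_ext <;> simp only [ex_0, ex_1, ex_2, ex_3] <;> omega
    · rw [if_neg c2]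
      rw [fAB_ex, gAB]
      rw [if_neg (by omega), if_neg (by omega), if_neg (by omega)]
      apply e4_ext <;> simp only [ex_0, ex_1, ex_2, ex_3] <;> omega

theorem fBA_fAB (α : E4) (h : α ∈ PA) : fBA (fAB α) = α := by
  rw [mem_PA] at h
  rw [fAB, gAB]
  by_cases c1 : α 0 < α 1
  · rw [if_pos c1]
    rw [fBA_ex, gBA]
    rw [if_pos c1, if_pos h.2.2]
    apply e4_ext <;> simp only [ex_0, ex_1, ex_2, ex_3]
  · rw [if_neg c1]
    by_cases c2 : 1 ≤ α 1
    · rw [if_pos c2]
      rw [fBA_ex, gBA]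
      rw [if_pos (by omega), if_neg (by omega)]
      apply e4_ext <;> simp only [ex_0, ex_1, ex_2, ex_3] <;> omega
    · rw [if_neg c2]
      by_cases c3 : α 0 % 4 = 0
      · rw [if_pos c3]
        rw [fBA_ex, gBA]
        rw [if_neg (by omega), if_pos (by omega)]
        apply e4_ext <;> simp only [ex_0, ex_1, ex_2, ex_3] <;> omega
      · rw [if_neg c3]
        rw [fBA_ex, gBA]
        rw [if_neg (by omega), if_neg (by omega)]
        apply e4_ext <;> simp only [ex_0, ex_1, ex_2, ex_3] <;> omega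

noncomputable def eBA (k : ℕ) :
    {α : E4 | α ∈ PB ∧ deg4 α = k} ≃ {α : E4 | α ∈ PA ∧ deg4 α = k} where
  toFun := fun α => ⟨fBA α.1, fBA_mem k α.1 α.2⟩
  invFun := fun α => ⟨fAB α.1, fAB_mem k α.1 α.2⟩
  left_inv := fun α => Subtype.ext (fAB_fBA α.1 α.2.1)
  right_inv := fun α => Subtype.ext (fBA_fAB α.1 α.2.1)

theorem finrank_U (k : ℕ) : Module.finrank ℝ (U G1 k) = Module.finrank ℝ (U G2 k) := by
  have h1 := le_antisymm (finrank_U1_le k) (le_finrank_U1 k)
  rw [h1, U2_eq, finrank_restr]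
  exact Nat.card_congr (eBA k)

theorem finrank_harmonic (k : ℕ) :
    Module.finrank ℝ ↥(U G1 k ⊓ LinearMap.ker lap) =
      Module.finrank ℝ ↥(U G2 k ⊓ LinearMap.ker lap) := by
  by_cases hk : k < 2
  · have h1 : U G1 k ⊓ LinearMap.ker lap = U G1 k := by
      apply inf_eq_left.2
      intro p hp
      exact lap_eq_zero PS k hk p (U1_le k hp)
    have h2 : U G2 k ⊓ LinearMap.ker lap = U G2 k := by
      apply inf_eq_left.2
      intro p hp
      exact lap_eq_zero PA k hk p (U2_le k hp)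
    rw [h1, h2, finrank_U]
  · obtain ⟨j, rfl⟩ : ∃ j, k = j + 2 := ⟨k - 2, by omega⟩
    have h1 := rank_nullity (U G1) inferInstance map_U1 j
    have h2 := rank_nullity (U G2) inferInstance map_U2 j
    have h3 := finrank_U j
    have h4 := finrank_U (j + 2)
    omega

end Pool.Agent.Helper47.Orb
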