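import Pool.Agent.Helper47.Orb.Coeff

/-!
The two groups: `G1`, generated by a quarter turn in one plane and `-1` on the orthogonal plane,
and `G2`, the even sign changes.
-/

set_option autoImplicit false

open MvPolynomial

namespace Pool.Agent.Helper47.Orb

abbrev O4 := Matrix.orthogonalGroup (Fin 4) ℝ

/-- quarter turn in the first coordinate plane -/
def Rm : Matrix (Fin 4) (Fin 4) ℝ := !![0, -1, 0, 0; 1, 0, 0, 0; 0, 0, 1, 0; 0, 0, 0, 1]

theorem Rm_mem : Rm ∈ Matrix.orthogonalGroup (Fin 4) ℝ := by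
  rw [Matrix.mem_orthogonalGroup_iff]
  ext i j
  fin_cases i <;> fin_cases j <;>
    simp [Rm, Matrix.mul_apply, Fin.sum_univ_four, Matrix.star_apply]

def R : O4 := ⟨Rm, Rm_mem⟩

theorem diag_mem (ε : Fin 4 → ℝ) (h : ∀ i, ε i * ε i = 1) :
    Matrix.diagonal ε ∈ Matrix.orthogonalGroup (Fin 4) ℝ := by
  rw [Matrix.mem_orthogonalGroup_iff, Matrix.diagonal_transpose, Matrix.diagonal_mul_diagonal]
  simp only [h]
  exact Matrix.diagonal_one

/-- signs `(1,1,-1,-1)` -/
def eT : Fin 4 → ℝ := ![1, 1, -1, -1]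
/-- signs `(-1,-1,1,1)` -/
def eT' : Fin 4 → ℝ := ![-1, -1, 1, 1]
/-- signs `(-1,1,-1,1)` -/
def eS : Fin 4 → ℝ := ![-1, 1, -1, 1]

def T : O4 := ⟨Matrix.diagonal eT, diag_mem eT (by intro i; fin_cases i <;> simp [eT])⟩
def T' : O4 := ⟨Matrix.diagonal eT', diag_mem eT' (by intro i; fin_cases i <;> simp [eT'])⟩
def S : O4 := ⟨Matrix.diagonal eS, diag_mem eS (by intro i; fin_cases i <;> simp [eS])⟩

/-- the cyclic-by-sign group, of type `C₄ × C₂` -/
def G1 : Subgroup O4 := Subgroup.closure {R, T}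
/-- the group of even sign changes, of type `C₂³` -/
def G2 : Subgroup O4 := Subgroup.closure {T', T, S}

/-! ### finiteness -/

/-- integral orthogonal matrices -/
def IntO : Subgroup O4 where
  carrier := {g | ∀ i j, ∃ n : ℤ, g.1 i j = n}
  mul_mem' := by
    intro a b ha hb i j
    choose f hf using ha
    choose f' hf' using hb
    refine ⟨∑ k, f i k * f' k j, ?_⟩
    rw [Submonoid.coe_mul, Matrix.mul_apply]
    push_cast
    refine Finset.sum_congr rfl fun k _ => ?_
    rw [← hf, ← hf']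
  one_mem' := by
    intro i j
    refine ⟨if i = j then 1 else 0, ?_⟩
    rw [OneMemClass.coe_one, Matrix.one_apply]
    split_ifs <;> simp
  inv_mem' := by
    intro a ha i j
    obtain ⟨n, hn⟩ := ha j i
    refine ⟨n, ?_⟩
    rw [← hn]
    rfl

theorem intO_finite : Finite IntO := by
  have hfin : Set.Finite {g : O4 | ∀ i j, g.1 i j ∈ ({-1, 0, 1} : Set ℝ)} := by
    have h1 : Set.Finite (Set.pi Set.univ (fun _ : Fin 4 => Set.pi Set.univ
        (fun _ : Fin 4 => ({-1, 0, 1} : Set ℝ)))) := by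
      apply Set.Finite.pi
      intro i
      apply Set.Finite.pi
      intro j
      exact Set.toFinite _
    refine Set.Finite.subset (Set.Finite.preimage (f := fun g : O4 => (fun i j => g.1 i j)) ?_ h1) ?_
    · intro a _ b _ hab
      apply Subtype.ext
      ext i j
      exact congrFun (congrFun hab i) j
    · intro g hg
      simp only [Set.mem_preimage, Set.mem_pi, Set.mem_univ, forall_true_left]
      intro i j
      exact hg i j
  have hsub : (IntO : Set O4) ⊆ {g : O4 | ∀ i j, g.1 i j ∈ ({-1, 0, 1} : Set ℝ)} := by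
    intro g hg i j
    obtain ⟨n, hn⟩ := hg i j
    have hb : ‖g.1 i j‖ ≤ 1 := entry_norm_bound_of_unitary g.2 i j
    rw [hn, Real.norm_eq_abs] at hb
    have hb' : |n| ≤ 1 := by exact_mod_cast hb
    rw [abs_le] at hb'
    have : n = -1 ∨ n = 0 ∨ n = 1 := by omega
    rw [hn]
    rcases this with rfl | rfl | rfl <;> simp
  exact (hfin.subset hsub).to_subtype

theorem diag_int (ε : Fin 4 → ℝ) (hε : ∀ i, ∃ n : ℤ, ε i = n) (g : O4)
    (hg : g.1 = Matrix.diagonal ε) : g ∈ IntO := by
  intro i j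
  rw [hg, Matrix.diagonal_apply]
  split_ifs
  · exact hε i
  · exact ⟨0, by simp⟩

theorem T_mem : T ∈ IntO := diag_int eT (by
  intro i; fin_cases i
  · exact ⟨1, by simp [eT]⟩
  · exact ⟨1, by simp [eT]⟩
  · exact ⟨-1, by simp [eT]⟩
  · exact ⟨-1, by simp [eT]⟩) T rfl

theorem T'_mem : T' ∈ IntO := diag_int eT' (by
  intro i; fin_cases i
  · exact ⟨-1, by simp [eT']⟩
  · exact ⟨-1, by simp [eT']⟩
  · exact ⟨1, by simp [eT']⟩
  · exact ⟨1, by simp [eT']⟩) T' rfl

theorem S_mem : S ∈ IntO := diag_int eS (by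
  intro i; fin_cases i
  · exact ⟨-1, by simp [eS]⟩
  · exact ⟨1, by simp [eS]⟩
  · exact ⟨-1, by simp [eS]⟩
  · exact ⟨1, by simp [eS]⟩) S rfl

theorem R_mem : R ∈ IntO := by
  have hR : R.1 = (!![0, -1, 0, 0; 1, 0, 0, 0; 0, 0, 1, 0; 0, 0, 0, 1] :
      Matrix (Fin 4) (Fin 4) ℤ).map (fun n : ℤ => (n : ℝ)) := by
    ext i j
    fin_cases i <;> fin_cases j <;> simp [R, Rm]
  intro i j
  rw [hR]
  exact ⟨_, rfl⟩

theorem G1_finite : Finite G1 := by
  have : G1 ≤ IntO := by
    unfold G1
    rw [Subgroup.closure_le]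
    intro g hg
    rcases hg with rfl | rfl
    · exact R_mem
    · exact T_mem
  have := intO_finite
  exact Finite.of_injective _ (Subgroup.inclusion_injective ‹G1 ≤ IntO›)

theorem G2_finite : Finite G2 := by
  have : G2 ≤ IntO := by
    unfold G2
    rw [Subgroup.closure_le]
    intro g hg
    rcases hg with rfl | rfl | rfl
    · exact T'_mem
    · exact T_mem
    · exact S_mem
  have := intO_finite
  exact Finite.of_injective _ (Subgroup.inclusion_injective ‹G2 ≤ IntO›)

/-! ### non-conjugacy -/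

/-- diagonal orthogonal matrices -/
def DiagO : Subgroup O4 where
  carrier := {g | ∀ i j, i ≠ j → g.1 i j = 0}
  mul_mem' := by
    intro a b ha hb i j hij
    rw [Submonoid.coe_mul, Matrix.mul_apply]
    refine Finset.sum_eq_zero fun k _ => ?_
    by_cases hik : i = k
    · subst hik
      rw [hb i j hij, mul_zero]
    · rw [ha i k hik, zero_mul]
  one_mem' := by
    intro i j hij
    rw [OneMemClass.coe_one, Matrix.one_apply_ne hij]
  inv_mem' := by
    intro a ha i j hij
    have := ha j i hij.symm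
    show (star a.1) i j = 0
    rw [Matrix.star_apply, this, star_zero]

theorem DiagO_sq (g : O4) (hg : g ∈ DiagO) : g * g = 1 := by
  have h1 : g⁻¹ = g := by
    apply Subtype.ext
    show star g.1 = g.1
    ext i j
    rw [Matrix.star_apply]
    by_cases hij : i = j
    · subst hij; simp
    · rw [hg i j hij, hg j i (Ne.symm hij)]; simp
  calc g * g = g⁻¹ * g := by rw [h1]
    _ = 1 := inv_mul_cancel g

theorem G2_le_diag : G2 ≤ DiagO := by
  unfold G2
  rw [Subgroup.closure_le]
  intro g hg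
  rcases hg with rfl | rfl | rfl <;>
  · intro i j hij
    exact Matrix.diagonal_apply_ne _ hij

theorem R_sq_ne : R * R ≠ 1 := by
  intro h
  have h1 := congrArg (fun g : O4 => g.1 0 0) h
  simp [R, Rm, Matrix.mul_apply, Fin.sum_univ_four] at h1
  norm_num at h1

theorem not_conj : ¬ ∃ h : O4, ∀ g, g ∈ G1 ↔ h * g * h⁻¹ ∈ G2 := by
  rintro ⟨h, hh⟩
  have hR : R ∈ G1 := Subgroup.subset_closure (by simp)
  have h2 := DiagO_sq _ (G2_le_diag ((hh R).1 hR))
  apply R_sq_ne
  have : h * (R * R) * h⁻¹ = 1 := by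
    rw [← h2]; group
  have h3 : R * R = h⁻¹ * (h * (R * R) * h⁻¹) * h := by group
  rw [h3, this]; group

end Pool.Agent.Helper47.Orb
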